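import Mathlib

namespace Pool.Agent.Results.MP_be1d92_co.Unbounded

open Set

section
variable {P : Type} [PartialOrder P]

def ChainComplete (P : Type) [PartialOrder P] : Prop :=
  ∀ C : Set P, C.Nonempty → IsChain (· ≤ ·) C → (∃ a, IsLUB C a) ∧ ∃ a, IsGLB C a

/-- every maximal chain of the ordered set `S` that contains `p` contains `q` -/
def Funneled (S : Set P) (p q : P) : Prop :=
  ∀ C, Maximal (fun C => C ⊆ S ∧ IsChain (· ≤ ·) C) C → p ∈ C → q ∈ C

def Good (S Q : Set P) : Prop := Q ⊆ S ∧ ∀ p ∈ S, ∃! q, q ∈ Q ∧ Funneled S p q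

def WeakGood (S Q : Set P) : Prop := Q ⊆ S ∧ ∀ p ∈ S, ∃ q ∈ Q, Funneled S p q

/-- `n` successive `G`-steps lead from the whole set to a finite set -/
def Reach (G : Set P → Set P → Prop) (n : ℕ) : Prop :=
  ∃ T : ℕ → Set P, T 0 = univ ∧ (∀ k < n, G (T k) (T (k + 1))) ∧ (T n).Finite

lemma fun_iff {S : Set P} {p q : P} (hp : p ∈ S) (hq : q ∈ S) :
    Funneled S p q ↔ ∀ r ∈ S, (r ≤ p ∨ p ≤ r) → (r ≤ q ∨ q ≤ r) := by
  constructor
  · intro h r hr hc
    obtain ⟨C, h1, h2⟩ := zorn_subset_nonempty {C | C ⊆ S ∧ IsChain (· ≤ ·) C}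
      (fun c hc hch _ => ⟨⋃₀ c, ⟨sUnion_subset fun t ht => (hc ht).1, by
        rintro x ⟨s, hs, hx⟩ y ⟨t, ht, hy⟩ hne
        rcases hch.total hs ht with h | h
        · exact (hc ht).2 (h hx) hy hne
        · exact (hc hs).2 hx (h hy) hne⟩, fun s hs => subset_sUnion_of_mem hs⟩)
      {r, p} ⟨by rintro x (rfl | rfl) <;> assumption, by
        rintro x (rfl | rfl) y (rfl | rfl) hne <;> tauto⟩
    exact h2.1.2.total (h1 (Or.inl rfl)) (h C h2 (h1 (Or.inr rfl)))
  · intro h C hC hpC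
    refine hC.2 (y := insert q C) ⟨insert_subset hq hC.1.1, hC.1.2.insert fun r hr _ =>
      (h r (hC.1.1 hr) (hC.1.2.total hr hpC)).symm⟩ (subset_insert _ _) (mem_insert _ _)
end

inductive E (N : ℕ) : Type
  | x (n : ℕ) (i : Fin (N + 1)) (b : Bool)
  | s (i : Fin (N + 1))
  | w (i : Fin (N + 2))
  | c

variable {N : ℕ}

def E.le : E N → E N → Prop
  | .x n i b, .x m j d => (n = m ∧ i.1 = j.1 ∧ b = d) ∨ (n < m ∧ i.1 ≤ j.1)
  | .x _ i _, .s j => i.1 ≤ j.1
  | .x _ i _, .w j => i.1 ≤ j.1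
  | .s i, .s j => i.1 ≤ j.1
  | .s i, .w j => i.1 ≤ j.1
  | .w i, .w j => i.1 = j.1
  | .c, .w _ => True
  | .c, .c => True
  | _, _ => False

instance : PartialOrder (E N) where
  le := E.le
  le_refl a := by cases a <;> simp [E.le]
  le_trans a b d := by cases a <;> cases b <;> cases d <;> simp [E.le] <;> grind
  le_antisymm a b := by cases a <;> cases b <;> simp [E.le, Fin.ext_iff] <;> grind

lemma le_def (a b : E N) : a ≤ b ↔ E.le a b := Iff.rfl

def rk : E N → ℕ ×ₗ ℕ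
  | .x n _ _ => toLex (0, n)
  | .s i => toLex (1, i.1)
  | .w _ => toLex (2, 0)
  | .c => toLex (0, 0)

lemma rk_mono : StrictMono (rk (N := N)) := by
  intro a b h
  rw [lt_iff_le_and_ne, le_def] at h
  cases a <;> cases b <;> simp_all [E.le, rk, Prod.Lex.toLex_lt_toLex, Fin.ext_iff] <;> grind

def mu : E N → ℕ
  | .x _ _ _ => 0
  | .s i => i.1 + 1
  | .w _ => N + 2
  | .c => 1

def col : E N → ℕ
  | .x _ i _ => i.1
  | _ => 0

lemma mx (C : Set (E N)) (f : E N → ℕ) (M : ℕ) (h : ∀ a, f a ≤ M) (hne : C.Nonempty) :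
    ∃ a ∈ C, ∀ b ∈ C, f b ≤ f a := by
  obtain ⟨_, ⟨a, ha, rfl⟩, h2⟩ := exists_max_image (f '' C) id ((finite_le_nat M).subset (by
    rintro _ ⟨a, -, rfl⟩; exact h a)) (hne.image f)
  exact ⟨a, ha, fun b hb => h2 _ ⟨b, hb, rfl⟩⟩

lemma cc : ChainComplete (E N) := by
  intro C hne hC
  constructor
  swap
  · obtain ⟨a, ha, h⟩ := rk_mono.wellFoundedLT.wf.has_min C hne
    exact ⟨a, IsLeast.isGLB ⟨ha, fun b hb => (hC.total ha hb).elim id fun h' =>
      (h'.eq_or_lt.resolve_right (h b hb)).ge⟩⟩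
  by_cases hg : ∃ a, IsGreatest C a
  · exact hg.imp fun a h => h.isLUB
  have h1 : ∀ a ∈ C, ∃ b ∈ C, a ≤ b ∧ a ≠ b := fun a ha => by
    by_contra h
    push Not at h
    exact hg ⟨a, ha, fun b hb => (hC.total ha hb).elim (fun h' => (h b hb h').ge) id⟩
  have h2 : ∀ a ∈ C, mu a = 0 := by
    obtain ⟨a, ha, h⟩ := mx C mu (N + 2) (fun a => by
      cases a <;> simp [mu] <;> omega) hne
    obtain ⟨b, hb, h3, h4⟩ := h1 a ha
    have := h b hb
    have : mu a = 0 := by
      cases a <;> cases b <;> simp only [mu, le_def, E.le] at h3 this ⊢ <;> grind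
    exact fun b hb => by have := h b hb; omega
  have h3 : ∀ k, ∃ n i b, E.x n i b ∈ C ∧ k ≤ n := fun k => by
    induction k with
    | zero =>
      obtain ⟨a, ha⟩ := hne
      have := h2 a ha
      cases a <;> simp [mu] at this
      exact ⟨_, _, _, ha, Nat.zero_le _⟩
    | succ k ih =>
      obtain ⟨n, i, b, h, hk⟩ := ih
      obtain ⟨a, ha, h3, h4⟩ := h1 _ h
      have := h2 a ha
      cases a <;> simp [mu] at this
      refine ⟨_, _, _, ha, ?_⟩
      simp [le_def, E.le, Fin.ext_iff] at h3 h4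
      grind
  obtain ⟨a, ha, h⟩ := mx C col N (fun a => by
      cases a <;> simp [col]; omega) hne
  have := h2 a ha
  cases a <;> simp [mu] at this
  rename_i n i b
  refine ⟨.s i, fun a ha => ?_, fun u hu => ?_⟩
  · have := h2 a ha
    have h5 := h a ha
    cases a <;> simp [mu] at this
    exact h5
  · cases u with
    | x m j d =>
      obtain ⟨n, i, b, h, hk⟩ := h3 (m + 1)
      have := hu h
      simp only [le_def, E.le] at this
      omega
    | s j => exact (hu ha :)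
    | w j => exact (hu ha :)
    | c => exact (hu ha).elim

lemma fin_nx : {e : E N | mu e ≠ 0}.Finite := by
  refine (((finite_range E.s).union (finite_range E.w)).union (finite_singleton E.c)).subset ?_
  rintro (_ | _ | _ | _) <;> simp [mu]

lemma anti (A : Set (E N)) (hA : IsAntichain (· ≤ ·) A) : A.Finite := by
  refine (fin_nx.union (finite_iUnion (f := fun ib : Fin (N + 1) × Bool =>
    A ∩ range fun n => E.x n ib.1 ib.2) fun ib => Subsingleton.finite ?_)).subset ?_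
  · rintro _ ⟨h1, n, rfl⟩ _ ⟨h2, m, rfl⟩
    by_contra h
    have h3 := hA h1 h2 h
    have h4 := hA h2 h1 (Ne.symm h)
    simp only [le_def, E.le, Pi.compl_apply, compl_iff_not] at h3 h4
    grind
  · rintro (⟨n, i, b⟩ | _ | _ | _) h
    · exact Or.inr (mem_iUnion.2 ⟨(i, b), h, n, rfl⟩)
    all_goals simp [mu]

def R (k : ℕ) : Set (E N) := fun e => match e with
  | .x _ i _ => i.1 + k ≤ N
  | .s _ => False
  | _ => True

def T (k : ℕ) : Set (E N) := fun e => match e with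
  | .x _ i _ => i.1 + k ≤ N
  | .s i => i.1 + k ≤ N + 1
  | _ => True

lemma iso {k : ℕ} (hk : k ≤ N) {p q : E N} (hp : p ∈ R (k + 1))
    (h : ∀ r ∈ R k, (r ≤ p ∨ p ≤ r) → (r ≤ q ∨ q ≤ r)) : q = p := by
  have h0 := h .c trivial
  have h1 := fun i => h (.w i) trivial
  have h2 := fun n i b hi => h (.x n i b) hi
  cases p with
  | x n i b =>
    have hi : i.1 + (k + 1) ≤ N := hp
    have h3 := h1 ⟨i, by omega⟩
    have h4 := h2 (n + 1) ⟨i + 1, by omega⟩ b (show i.1 + 1 + k ≤ N by omega)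
    have h5 := h2 n i b (show i.1 + k ≤ N by omega)
    cases q with
    | x m j d =>
      have h6 := h2 m j (!d)
      simp [le_def, E.le, Fin.ext_iff, R, Membership.mem, Set.Mem] at h3 h4 h5 h6 ⊢
      grind
    | _ => simp [le_def, E.le] at h3 h4 h5 <;> omega
  | s i => exact hp.elim
  | w i =>
    have h3 := h1 i
    have h4 := h2 0 0 true (show 0 + k ≤ N by omega)
    cases q <;> simp [le_def, E.le, Fin.ext_iff] at h0 h3 h4 ⊢
    omega
  | c =>
    have h3 := h1 0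
    have h4 := h1 1
    cases q with
    | w j =>
      simp only [le_def, E.le, true_or, or_true, forall_const] at h3 h4
      have : ((1 : Fin (N + 2)) : ℕ) = 1 := rfl
      have : ((0 : Fin (N + 2)) : ℕ) = 0 := rfl
      omega
    | _ => simp [le_def, E.le] at h0 ⊢

lemma RT (k : ℕ) : R k ⊆ (T k : Set (E N)) := by
  rintro (_ | _ | _ | _) h <;> first | exact h | exact h.elim

lemma key {k : ℕ} {i : Fin (N + 1)} (hi : i.1 + k ≤ N) {p q : E N} (hq : q ∈ T (k + 1))
    (hp : p = .s i ∨ (i.1 + k = N ∧ ((∃ n b, p = .x n i b) ∨ ∃ j, p = .s j ∧ j.1 = i.1 + 1)))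
    (h : ∀ r ∈ T k, (r ≤ p ∨ p ≤ r) → (r ≤ q ∨ q ≤ r)) : q = .s i := by
  have h1 := fun i => h (.w i) trivial
  have h2 := fun n i b hi => h (.x n i b) hi
  rcases hp with rfl | ⟨hk, ⟨n, b, rfl⟩ | ⟨j, rfl, hj⟩⟩
  · have h3 := h1 ⟨i, by omega⟩
    have h4 := h1 ⟨i + 1, by omega⟩
    have h5 := h2 0 i true hi
    cases q with
    | x m j d =>
      have h6 := h2 m j (!d)
      simp [le_def, E.le, T, Membership.mem, Set.Mem] at h3 h4 h5 h6 ⊢
      grind
    | _ => simp [le_def, E.le, Fin.ext_iff] at h3 h4 h5 ⊢ <;> omega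
  · have h3 := h1 ⟨i, by omega⟩
    have h4 := h1 ⟨i + 1, by omega⟩
    have h5 := h2 n i b hi
    cases q with
    | x m j d =>
      have h6 := h2 m j (!d)
      simp [le_def, E.le, T, Membership.mem, Set.Mem] at h3 h4 h5 h6 hq ⊢
      grind
    | _ => simp [le_def, E.le, Fin.ext_iff] at h3 h4 h5 ⊢ <;> omega
  · have h3 := h1 ⟨j, by omega⟩
    have h4 := h1 ⟨j + 1, by omega⟩
    have h5 := h2 0 i true hi
    cases q with
    | x m l d =>
      have h6 := h2 m l (!d)
      simp [le_def, E.le, T, Membership.mem, Set.Mem] at h3 h4 h5 h6 hq ⊢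
      grind
    | _ =>
      simp [le_def, E.le, Fin.ext_iff, T, Membership.mem, Set.Mem] at h3 h4 h5 hq ⊢ <;> omega

theorem result (N : ℕ) : ∃ (P : Type) (_ : PartialOrder P), ChainComplete P ∧
    (∀ A : Set P, IsAntichain (· ≤ ·) A → A.Finite) ∧
    Reach (P := P) Good (N + 1) ∧ ∀ n ≤ N, ¬ Reach (P := P) WeakGood n := by
  refine ⟨E N, inferInstance, cc, anti, ⟨T, eq_univ_of_forall ?_, fun k hk => ?_,
    fin_nx.subset ?_⟩, ?_⟩
  · rintro (⟨_, i, _⟩ | i | _ | _) <;> simp [T, Membership.mem, Set.Mem] <;> omega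
  · have hs : T (k + 1) ⊆ (T k : Set (E N)) := by
      rintro (⟨_, i, _⟩ | i | _ | _) <;> simp [T, Membership.mem, Set.Mem] <;> omega
    refine ⟨hs, fun p hp => ?_⟩
    by_cases h1 : p ∈ R (k + 1)
    · exact ⟨p, ⟨RT _ h1, fun _ _ => id⟩, fun q hq => iso (by omega) h1 fun r hr =>
        (fun_iff hp (hs hq.1)).1 hq.2 r (RT _ hr)⟩
    have : ∃ i : Fin (N + 1), i.1 + k ≤ N ∧ (p = .s i ∨ (i.1 + k = N ∧
        ((∃ n b, p = .x n i b) ∨ ∃ j, p = .s j ∧ j.1 = i.1 + 1))) := by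
      cases p with
      | x n i b =>
        have h2 : i.1 + k ≤ N := hp
        have h3 : ¬ i.1 + (k + 1) ≤ N := h1
        exact ⟨i, h2, Or.inr ⟨by omega, Or.inl ⟨n, b, rfl⟩⟩⟩
      | s j =>
        have h2 : j.1 + k ≤ N + 1 := hp
        by_cases h3 : j.1 + k ≤ N
        · exact ⟨j, h3, Or.inl rfl⟩
        · exact ⟨⟨j - 1, by omega⟩, by simp; omega, Or.inr ⟨by simp; omega,
            Or.inr ⟨j, rfl, by simp; omega⟩⟩⟩
      | _ => exact (h1 trivial).elim
    obtain ⟨i, hi, h2⟩ := this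
    have h3 : E.s i ∈ T (k + 1) := show i.1 + (k + 1) ≤ N + 1 by omega
    refine ⟨.s i, ⟨h3, (fun_iff hp (hs h3)).2 ?_⟩, fun q hq => key hi hq.1 h2
      ((fun_iff hp (hs hq.1)).1 hq.2)⟩
    rcases h2 with rfl | ⟨h4, ⟨n, b, rfl⟩ | ⟨j, rfl, hj⟩⟩
    · exact fun _ _ => id
    all_goals
      rintro (_ | _ | _ | _) <;> simp [le_def, E.le, T, Membership.mem, Set.Mem] <;> omega
  · rintro (⟨_, i, _⟩ | i | _ | _) h <;> simp [mu]
    exact absurd (show i.1 + (N + 1) ≤ N from h) (by omega)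
  · rintro n hn ⟨S, h0, h1, h2⟩
    have : ∀ k ≤ n, R k ⊆ S k := fun k hk => by
      induction k with
      | zero => simp [h0]
      | succ k ih =>
        intro p hp
        have h3 := ih (by omega)
        have h4 : p ∈ S k := h3 (by
          revert hp
          cases p <;> simp [R, Membership.mem, Set.Mem]; omega)
        obtain ⟨q, hq, h5⟩ := (h1 k hk).2 p h4
        rwa [← iso (by omega) hp fun r hr => (fun_iff h4 ((h1 k hk).1 hq)).1 h5 r (h3 hr)]
    refine infinite_of_injective_forall_mem (f := fun m => E.x m (0 : Fin (N + 1)) true)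
      (fun a b h => by simpa using h) (fun m => this n le_rfl ?_) h2
    exact show 0 + n ≤ N by omega

end Pool.Agent.Results.MP_be1d92_co.Unbounded
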